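import Mathlib
import Pool.Agent.H.MP_a930b8_gt.A
import Pool.Agent.H.MP_7b70e8_gt.B

set_option autoImplicit false

namespace Pool.Agent.Results.MP_a930b8_gt.CH

open Set Filter Cardinal Pool.Agent.H.MP_9c4169_gt Pool.Agent.H.MP_a930b8_gt

/-- `n`-covers -/
def On {Z : Type} (𝒪 : Set (Set Z)) (n : ℕ) : Set (Set (Set Z)) :=
  {𝒰 | 𝒰 ∈ Cov 𝒪 ∧ ∀ F : Finset Z, F.card = n → ∃ U ∈ 𝒰, (F : Set Z) ⊆ U}

def S1s {Z : Type} (𝒜 : ℕ → Set (Set (Set Z))) (ℬ : Set (Set (Set Z))) : Prop :=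
  ∀ 𝒰 : ℕ → Set (Set Z), (∀ n, 𝒰 n ∈ 𝒜 n) → ∃ U : ℕ → Set Z, (∀ n, U n ∈ 𝒰 n) ∧ range U ∈ ℬ

theorem result (ch : continuum = (aleph 1 : Cardinal.{0})) :
    ∃ X : Set ℝ, S1 (Om (Op X)) (Ta (Op X)) ∧ ¬ S1s (On (Op X)) (Ta (Op X)) := by
  classical
  obtain ⟨X, h1, h2, h3⟩ := main ch
  obtain ⟨e, e1, e2, -⟩ := H.MP_f722f0_gt.emb
  let φ : C → ℝ := fun x => e fun n => decide ((x n.unpair.1 : ℕ) = n.unpair.2)
  have φ1 : Continuous φ := e1.comp (continuous_pi fun n => (continuous_of_discreteTopology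
    (f := fun a : Fin (n.unpair.1 + 2) => decide ((a : ℕ) = n.unpair.2))).comp (continuous_apply _))
  have φ2 : Function.Injective φ := fun x y h => funext fun i => Fin.ext <| by
    have := congrFun (e2 h) (i.pair (y i))
    rw [Nat.unpair_pair] at this
    simpa using this
  let ψ : φ '' X → C := fun z => z.2.choose
  have ψ1 : ∀ z, ψ z ∈ X ∧ φ (ψ z) = z := fun z => z.2.choose_spec
  have ψ2 : ∀ x ∈ X, ∃ z, ψ z = x := fun x hx => ⟨⟨_, x, hx, rfl⟩, φ2 (ψ1 _).2⟩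
  have ψ3 : Continuous ψ := (φ1.isClosedEmbedding φ2).isInducing.continuous_iff.2
    (continuous_subtype_val.congr fun z => (ψ1 z).2.symm)
  refine ⟨φ '' X, fun 𝒰 h => ?_, fun h => ?_⟩
  · choose 𝒱 v1 v2 v3 using fun n => H.MP_7b70e8_gt.omct (h n)
    choose u hu using fun n => (v2 n).exists_eq_range ((v3 n ∅ finite_empty).imp fun _ h => h.1)
    have u1 : ∀ n j, u n j ∈ 𝒰 n := fun n j => v1 n ((hu n).ge ⟨j, rfl⟩)
    choose W w1 w2 using fun n j => isOpen_induced_iff.1 ((h n).1.1 (u1 n j))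
    obtain ⟨g, hg⟩ := h1 (fun n j => φ ⁻¹' W n j) (fun n j => ((w1 n j).preimage φ1).measurableSet)
      fun n F hF hFX => by
        obtain ⟨U, h7, h8⟩ := v3 n (Subtype.val ⁻¹' (φ '' F))
          ((hF.image φ).preimage Subtype.val_injective.injOn)
        obtain ⟨j, rfl⟩ := (hu n).le h7
        exact ⟨j, fun x hx => (w2 n j).ge (h8 (show (⟨_, x, hFX hx, rfl⟩ : φ '' X) ∈
          Subtype.val ⁻¹' (φ '' F) from ⟨x, hx, rfl⟩))⟩
    exact (Sel.ga ⟨_, fun n => u1 n (g n), fun z => (hg _ (ψ1 z).1).mono fun n hn => (w2 n _).le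
      (by simpa [(ψ1 z).2] using hn)⟩ fun n => (h n).1).imp fun _ h => ⟨h.1, ga_ta h.2.1⟩
  · obtain ⟨x0, h0, -⟩ := h2 0
    have k1 : ∀ (y : C) m, ∃ z, ∀ i < m, ψ z i = y i := fun y m =>
      (ψ2 _ (h3 x0 h0 (show pat m y x0 ∈ _ from ⟨m, fun i hi => if_neg (not_lt.2 hi)⟩))).imp
        fun z hz i hi => by rw [hz]; exact if_pos hi
    have k2 : ∀ n (F : Finset (φ '' X)), F.card ≤ n + 1 → ∃ p, ∀ z ∈ F, ψ z n ≠ p := by
      intro n F hF
      obtain ⟨p, -, hp⟩ := Finset.exists_mem_notMem_of_card_lt_card (s := F.image (ψ · n))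
        (t := Finset.univ) (Finset.card_image_le.trans_lt (by simp; omega))
      exact ⟨p, fun z hz h => hp (Finset.mem_image.2 ⟨z, hz, h⟩)⟩
    obtain ⟨U, u1, u2⟩ := h (fun n => range fun p => {z | ψ z n ≠ p}) fun n =>
      ⟨⟨range_subset_iff.2 fun p => isOpen_ne_fun ((continuous_apply n).comp ψ3) continuous_const,
        eq_univ_of_forall fun z => (k2 n {z} (by simp)).elim fun p hp =>
          ⟨_, ⟨p, rfl⟩, hp z (by simp)⟩, fun ⟨p, hp⟩ => by
            obtain ⟨z, hz⟩ := k1 (Function.update 0 n p) (n + 1)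
            exact hp.ge (mem_univ z) (by simpa using hz n n.lt_succ_self)⟩,
        fun F hF => (k2 n F (by omega)).elim fun p hp => ⟨_, ⟨p, rfl⟩, hp⟩⟩
    choose p hp using u1
    choose q hq using fun i => exists_ne (p i)
    have k3 : Function.Injective U := fun n m h => by
      by_contra h4
      obtain ⟨z, hz⟩ := k1 (Function.update q m (p m)) (max n m + 1)
      have h5 := Set.ext_iff.1 h z
      simp [← hp, hz n (by omega), hz m (by omega), h4, hq] at h5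
    obtain ⟨x, hx, y, hy, h4, h5⟩ := h2 p
    obtain ⟨a, rfl⟩ := ψ2 x hx
    obtain ⟨b, rfl⟩ := ψ2 y hy
    exact (u2.2.2 a b).elim
      (fun h => h5 ((h.preimage k3.injOn).subset fun n hn => ⟨⟨n, rfl⟩, by simpa [← hp] using hn.symm⟩))
      fun h => h4 ((h.preimage k3.injOn).subset fun n hn => ⟨⟨n, rfl⟩, by simpa [← hp] using hn.symm⟩)

end Pool.Agent.Results.MP_a930b8_gt.CH
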